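import Mathlib
import Pool.Agent.H.MP_53071c_co.Main

set_option autoImplicit false

namespace Pool.Agent.Results.MP_53071c_co.Five

open Classical in
/-- negate the block in positions `i, ..., i + m` if it equals `a` or its negation -/
noncomputable def phi {m n : ℕ} (a : Fin (m + 1) → ZMod 2) (i : ℕ) (u : Fin n → ZMod 2) :
    Fin n → ZMod 2 :=
  if ∃ ε : ZMod 2, ∀ (r : Fin (m + 1)) (j : Fin n), j.1 = i + r.1 → u j = a r + ε then
    fun j => if i ≤ j.1 ∧ j.1 ≤ i + m then u j + 1 else u j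
  else u

/-- the substitution graph of the keyword `a` on words of length `n` -/
def G {m : ℕ} (a : Fin (m + 1) → ZMod 2) (n : ℕ) : SimpleGraph (Fin n → ZMod 2) :=
  SimpleGraph.fromRel fun u v => ∃ i, i + m < n ∧ v = phi a i u

/-- `b` is the negation, the seminegation or the reversal of `a` -/
def Step {m : ℕ} (a b : Fin (m + 1) → ZMod 2) : Prop :=
  (b = fun r => a r + 1) ∨ (b = fun r => if r.1 % 2 = 1 then a r + 1 else a r) ∨ b = fun r => a r.rev

open H.MP_53071c_co in
theorem phi_eq {n : ℕ} (κ : ZMod 2) (u v : Fin n → ZMod 2) (h : u ≠ v) :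
    (∃ i, i + 4 < n ∧ v = phi ![1 + κ, κ, 0, 0, 0] i u) ↔ ∃ i, v = mv κ i u := by
  have key : ∀ i, i + 4 < n → phi ![1 + κ, κ, 0, 0, 0] i u = mv κ i u := fun i hi => by
    classical
    unfold phi mv
    refine if_congr ?_ ?_ rfl
    · have x : ∀ r (h : r < n), X u r = u ⟨r, h⟩ := fun r h => dif_pos h
      simp only [Act, D, x i (by omega), x (i + 1) (by omega), x (i + 1 + 1) (by omega),
        x (i + 2 + 1) (by omega), x (i + 3 + 1) (by omega), hi, true_and]
      constructor
      · rintro ⟨ε, e⟩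
        rw [e 0 _ rfl, e 1 _ rfl, e 2 _ rfl, e 3 _ rfl, e 4 _ rfl]
        clear e
        revert κ ε
        decide
      · intro e
        refine ⟨u ⟨i + 4, hi⟩, fun r j hj => ?_⟩
        obtain ⟨j, hj'⟩ := j
        obtain rfl : j = i + r := hj
        have : ∀ κ a b c d f : ZMod 2, a + b = 1 ∧ b + c = κ ∧ c + d = 0 ∧ d + f = 0 →
          a = 1 + κ + f ∧ b = κ + f ∧ c = 0 + f ∧ d = 0 + f ∧ f = 0 + f := by decide
        obtain ⟨a, b, c, d, f⟩ := this _ _ _ _ _ _ e
        fin_cases r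
        exacts [a, b, c, d, f]
    · funext j
      simp only [Pi.add_apply, ind]
      split_ifs <;> simp
  refine ⟨fun ⟨i, a, b⟩ => ⟨i, b.trans (key i a)⟩, fun ⟨i, b⟩ => ?_⟩
  have : i + 4 < n := by
    by_contra a
    rw [mv, if_neg fun e => a e.1] at b
    exact h b.symm
  exact ⟨i, this, b.trans (key i this).symm⟩

theorem result : ∃ m ≥ 1, ∃ a b : Fin (m + 1) → ZMod 2, (∀ n, Nonempty (G a n ≃g G b n)) ∧
    ¬ Relation.ReflTransGen Step a b := by
  refine ⟨4, by omega, ![1 + 0, 0, 0, 0, 0], ![1 + 1, 1, 0, 0, 0], fun n => ?_, fun h => ?_⟩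
  · obtain ⟨f, hf⟩ := H.MP_53071c_co.main n
    refine ⟨⟨f, fun {u v} => ?_⟩⟩
    simp only [G, SimpleGraph.fromRel_adj, ne_eq, f.injective.eq_iff]
    refine and_congr_right fun e => ?_
    rw [phi_eq _ _ _ e, phi_eq _ _ _ (Ne.symm e), phi_eq _ _ _ (f.injective.ne e),
      phi_eq _ _ _ (f.injective.ne (Ne.symm e))]
    simp only [← hf, f.injective.eq_iff]
  · have : ∀ b, Relation.ReflTransGen Step ![1 + 0, 0, 0, 0, 0] b → b 1 + b 2 = b 2 + b 3 := fun b h => by
      induction h with
      | refl => decide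
      | @tail x y h k ih =>
        clear h
        rcases k with rfl | rfl | rfl <;> revert ih <;> revert x <;> decide +kernel
    exact absurd (this _ h) (by decide)

end Pool.Agent.Results.MP_53071c_co.Five
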